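import Pool.Agent.Helper77.PPB.Goals2
import Pool.Agent.Helper30.PPO.OASM

/-!
# Project PPB, packet B_ASM: from classes to characters
-/

set_option autoImplicit false

namespace Pool.Agent.Helper81.PPB

open NumberField Module Pool.Agent.Helper11.PP Pool.Agent.Helper77.PPB
open Pool.Agent.Helper38.FD (Chr CutsOut)
open Pool.Agent.Helper30.PPO (core tsum_cover)

section abs

variable {Cl : Type} (A : Set Cl) (cc : Cl → ℕ)

theorem grow (hs : ∀ X : ℝ, 0 < X → Summable fun c : A => Real.exp (-(cc c.1 : ℝ) / X))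
    (hinf : A.Infinite) (M : ℝ) :
    ∀ᶠ X : ℝ in Filter.atTop, M ≤ ∑' c : A, Real.exp (-(cc c.1 : ℝ) / X) := by
  obtain ⟨F, hF, hcard⟩ := hinf.exists_subset_card_eq (⌈2 * M⌉₊)
  filter_upwards [Filter.eventually_ge_atTop (2 * (∑ c ∈ F, cc c : ℕ) + 1 : ℝ)] with X hX
  have hX0 : 0 < X := by
    have : (0 : ℝ) ≤ 2 * (∑ c ∈ F, cc c : ℕ) := by positivity
    linarith
  have hsA : Summable (A.indicator fun c => Real.exp (-(cc c : ℝ) / X)) :=
    summable_subtype_iff_indicator.1 (hs X hX0)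
  rw [tsum_subtype A fun c => Real.exp (-(cc c : ℝ) / X)]
  have h1 : ∑ c ∈ F, A.indicator (fun c => Real.exp (-(cc c : ℝ) / X)) c ≤
      ∑' c, A.indicator (fun c => Real.exp (-(cc c : ℝ) / X)) c :=
    hsA.sum_le_tsum _ fun c _ => Set.indicator_nonneg (fun c _ => (Real.exp_pos _).le) c
  refine le_trans ?_ h1
  have h2 : ∀ c ∈ F, (1 / 2 : ℝ) ≤ A.indicator (fun c => Real.exp (-(cc c : ℝ) / X)) c := by
    intro c hc
    rw [Set.indicator_of_mem (hF hc)]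
    have h3 : cc c ≤ ∑ c ∈ F, cc c := Finset.single_le_sum (f := cc) (fun _ _ => Nat.zero_le _) hc
    have h4 : (cc c : ℝ) ≤ (∑ c ∈ F, cc c : ℕ) := by exact_mod_cast h3
    have h5 : (cc c : ℝ) / X ≤ 1 / 2 := by
      rw [div_le_iff₀ hX0]
      linarith
    have h6 := Real.add_one_le_exp (-(cc c : ℝ) / X)
    rw [neg_div] at h6 ⊢
    linarith
  have h7 := Finset.card_nsmul_le_sum F _ _ h2
  rw [hcard, nsmul_eq_mul] at h7
  have h8 := Nat.le_ceil (2 * M)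
  linarith

theorem zsum {Z : Set Cl} (hZ : Z.Finite) (X : ℝ) (hX : 0 < X) :
    ∑' c : {c | c ∈ A ∧ c ∈ Z}, Real.exp (-(cc c.1 : ℝ) / X) ≤ Z.ncard := by
  classical
  have h0 := tsum_subtype {c | c ∈ A ∧ c ∈ Z} fun c => Real.exp (-(cc c : ℝ) / X)
  rw [h0, tsum_eq_sum (s := hZ.toFinset)]
  · rw [Set.ncard_eq_toFinset_card Z hZ]
    have h1 : ∀ c ∈ hZ.toFinset,
        {c | c ∈ A ∧ c ∈ Z}.indicator (fun c => Real.exp (-(cc c : ℝ) / X)) c ≤ 1 := by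
      intro c _
      refine (Set.indicator_le_self' (fun c _ => (Real.exp_pos _).le) c).trans ?_
      rw [Real.exp_le_one_iff, neg_div]
      have : 0 ≤ (cc c : ℝ) / X := by positivity
      linarith
    have h2 := Finset.sum_le_card_nsmul _ _ _ h1
    rwa [nsmul_eq_mul, mul_one] at h2
  · intro c hc
    apply Set.indicator_of_notMem
    rintro ⟨-, h⟩
    exact hc (hZ.mem_toFinset.2 h)

end abs

/-- The abstract form with a finite exceptional set. -/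
theorem core2 {Cl Fi : Type} (nf : Cl → Fi) (A B : Set Cl) (ZN ZF : Set Fi) (q : ℕ) (hq : 0 < q)
    (cd : Fi → ℕ) (cc : Cl → ℕ) (hAB : A ⊆ B) (hFN : ZF ⊆ ZN)
    (k2 : ∀ N ∈ ZN, {c | c ∈ B ∧ nf c = N}.ncard = q)
    (k3 : ∀ c ∈ B, (c ∈ A ↔ nf c ∈ ZF)) (k4 : ∀ c ∈ A, cd (nf c) = cc c)
    (hnat : D_NAT)
    (hcmp : ∃ C : ℕ, ∀ X : ℕ, {N | N ∈ ZN ∧ cd N ≤ X}.ncard ≤
      C * ({N | N ∈ ZF ∧ cd N ≤ C * X}.ncard + 1))
    (hbfn : ∀ X : ℕ, {N | N ∈ ZN ∧ cd N ≤ X}.Finite)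
    (n : ℕ) (Bd : Fin n → Set Cl) (G : Set Fi) (Z : Set Cl) (θ : ℝ) (hθ : 0 ≤ θ) (hZ : Z.Finite)
    (hG : ∀ c ∈ A, c ∉ Z → nf c ∉ G → ∃ r, c ∈ Bd r)
    (hs : ∀ X : ℝ, 0 < X → Summable fun c : A => Real.exp (-(cc c.1 : ℝ) / X))
    (hfin : ∀ X : ℝ, {c | c ∈ A ∧ (cc c : ℝ) ≤ X}.Finite)
    (hdb : ∃ C X₀ : ℝ, 0 < X₀ ∧ ∀ X : ℝ, X₀ ≤ X →
      ({c | c ∈ A ∧ (cc c : ℝ) ≤ 2 * X}.ncard : ℝ) ≤ C * {c | c ∈ A ∧ (cc c : ℝ) ≤ X}.ncard)
    (hinf : A.Infinite)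
    (hab : ∀ r, ∀ η : ℝ, 0 < η → ∀ᶠ X : ℝ in Filter.atTop,
      ∑' c : {c | c ∈ A ∧ c ∈ Bd r}, Real.exp (-(cc c.1 : ℝ) / X) ≤
        (θ + η) * ∑' c : A, Real.exp (-(cc c.1 : ℝ) / X)) :
    (∀ X : ℝ, 0 < X → Summable fun N : ZF => Real.exp (-(cd N.1 : ℝ) / X)) ∧
    (∀ η : ℝ, 0 < η → ∀ᶠ X : ℝ in Filter.atTop,
      ∑' N : {N | N ∈ ZF ∧ N ∉ G}, Real.exp (-(cd N.1 : ℝ) / X) ≤
        (n * θ + η) * ∑' N : ZF, Real.exp (-(cd N.1 : ℝ) / X)) ∧
    (∀ X : ℕ, {N | N ∈ ZN ∧ cd N ≤ X}.Finite) ∧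
    (n * θ < 1 → ∃ c : ℝ, 0 < c ∧ ∀ᶠ X : ℕ in Filter.atTop,
      0 < {N | N ∈ ZN ∧ cd N ≤ X}.ncard ∧
      c * {N | N ∈ ZN ∧ cd N ≤ X}.ncard ≤ {N | N ∈ ZF ∧ cd N ≤ X ∧ N ∈ G}.ncard) := by
  have hZs : ∀ η : ℝ, 0 < η → ∀ᶠ X : ℝ in Filter.atTop,
      ∑' c : {c | c ∈ A ∧ c ∈ Z}, Real.exp (-(cc c.1 : ℝ) / X) ≤
        η * ∑' c : A, Real.exp (-(cc c.1 : ℝ) / X) := by
    intro η hη
    filter_upwards [grow A cc hs hinf ((Z.ncard : ℝ) / η), Filter.eventually_gt_atTop (0 : ℝ)]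
      with X hX hX0
    refine (zsum A cc hZ X hX0).trans ?_
    rw [div_le_iff₀ hη] at hX
    linarith
  rcases Nat.eq_zero_or_pos n with hn | hn
  · subst hn
    have h := core nf A B ZN ZF q hq cd cc hAB hFN k2 k3 k4 hnat hcmp hbfn 1 (fun _ => Z) G 0
      le_rfl
      (fun c hc hcG => by
        refine ⟨0, ?_⟩
        by_contra hcZ
        obtain ⟨r, -⟩ := hG c hc hcZ hcG
        exact r.elim0) hs hfin hdb hinf
      (fun _ η hη => by
        have := hZs η hη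
        simpa only [zero_add] using this)
    simpa only [Nat.cast_zero, zero_mul, mul_zero] using h
  · refine core nf A B ZN ZF q hq cd cc hAB hFN k2 k3 k4 hnat hcmp hbfn n (fun r => Bd r ∪ Z) G θ
      hθ ?_ hs hfin hdb hinf ?_
    · intro c hc hcG
      by_cases hcZ : c ∈ Z
      · exact ⟨⟨0, hn⟩, Or.inr hcZ⟩
      · obtain ⟨r, hr⟩ := hG c hc hcZ hcG
        exact ⟨r, Or.inl hr⟩
    · intro r η hη
      filter_upwards [hab r (η / 2) (by positivity), hZs (η / 2) (by positivity),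
        Filter.eventually_gt_atTop (0 : ℝ)] with X h1 h2 hX0
      have h3 := tsum_cover A {c | c ∈ A ∧ c ∈ Bd r ∪ Z} 2 ![Bd r, Z]
        (fun c : Cl => Real.exp (-(cc c : ℝ) / X)) (fun c => (Real.exp_pos _).le) (hs X hX0)
        (fun c hc => ⟨hc.1, by
          rcases hc.2 with h | h
          · exact ⟨0, h⟩
          · exact ⟨1, h⟩⟩)
      rw [Fin.sum_univ_two] at h3
      refine h3.trans ?_
      have h4 : (θ + η) * ∑' c : A, Real.exp (-(cc c.1 : ℝ) / X) =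
          (θ + η / 2) * ∑' c : A, Real.exp (-(cc c.1 : ℝ) / X) +
            η / 2 * ∑' c : A, Real.exp (-(cc c.1 : ℝ) / X) := by ring
      rw [h4]
      exact add_le_add h1 h2

theorem b_asm (h1 : D_CMP) (h2 : D_NAT) (h3 : D_BFN) : B_ASM := by
  intro p hp K K₁ _ _ _ _ _ ε nf cf k1 k2 k3 k4 k5 k6 n Bd G Z θ hθ hZ hG hs hfin hdb hinf hab
  have hq : 0 < p - 1 := by
    have := hp.out.two_le
    omega
  have hAB : ASet p K ε ⊆ BSet p K ε := fun c hc => by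
    obtain ⟨hc1, a, ha, ho, -⟩ := hc
    exact ⟨hc1, a, ha, ho⟩
  have hFN : ChF p K ⊆ ChN p K := fun x hx => ⟨⟨hx.1.1, hx.1.2.1⟩, hx.2⟩
  have hone : ∀ x ∈ ChN p K, {c | c ∈ BSet p K ε ∧ (nf c, cf c) = x}.ncard = 1 := by
    rintro ⟨N, φ⟩ ⟨hN, hφ⟩
    obtain ⟨c, ⟨hc1, hc2, hc3⟩, huniq⟩ := k6 N hN φ hφ
    rw [Set.ncard_eq_one]
    refine ⟨c, ?_⟩
    ext c'
    constructor
    · rintro ⟨h, he⟩
      exact huniq c' ⟨h, congrArg Prod.fst he, congrArg Prod.snd he⟩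
    · intro h
      rw [Set.mem_singleton_iff] at h
      subst h
      exact ⟨hc1, Prod.ext hc2 hc3⟩
  have hfib : ∀ N ∈ CycN p K, {c | c ∈ BSet p K ε ∧ nf c = N}.Finite := by
    intro N hN
    apply Set.finite_of_ncard_ne_zero
    rw [k2 N hN]
    omega
  -- characters of a given field
  have himg : ∀ N ∈ CycN p K, {x | x ∈ ChN p K ∧ x.1 = N} =
      (fun c => (nf c, cf c)) '' {c | c ∈ BSet p K ε ∧ nf c = N} := by
    intro N hN
    ext x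
    constructor
    · rintro ⟨⟨hx1, hx2⟩, hxN⟩
      obtain ⟨c, ⟨hc1, hc2, hc3⟩, -⟩ := k6 x.1 hx1 x.2 hx2
      exact ⟨c, ⟨hc1, hc2.trans hxN⟩, Prod.ext hc2 hc3⟩
    · rintro ⟨c, ⟨hc1, hc2⟩, rfl⟩
      exact ⟨⟨k1 c hc1, k5 c hc1⟩, hc2⟩
  have hbfn : ∀ X : ℕ, {x | x ∈ ChN p K ∧ cond K x.1 ≤ X}.Finite := by
    intro X
    have e : {x | x ∈ ChN p K ∧ cond K x.1 ≤ X} ⊆
        ⋃ N ∈ {N | N ∈ CycN p K ∧ cond K N ≤ X}, {x | x ∈ ChN p K ∧ x.1 = N} := by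
      rintro x ⟨hx, hxX⟩
      rw [Set.mem_iUnion₂]
      exact ⟨x.1, ⟨hx.1, hxX⟩, hx, rfl⟩
    refine Set.Finite.subset ?_ e
    refine (h3 p K X).biUnion fun N hN => ?_
    rw [himg N hN.1]
    exact (hfib N hN.1).image _
  have hcmp : ∃ C : ℕ, ∀ X : ℕ, {x | x ∈ ChN p K ∧ cond K x.1 ≤ X}.ncard ≤
      C * ({x | x ∈ ChF p K ∧ cond K x.1 ≤ C * X}.ncard + 1) := by
    obtain ⟨C, hC⟩ := h1 p K
    refine ⟨(p - 1) * C, fun X => ?_⟩
    have e1 : {x | x ∈ ChN p K ∧ cond K x.1 ≤ X}.ncard ≤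
        (p - 1) * {N | N ∈ CycN p K ∧ cond K N ≤ X}.ncard := by
      classical
      rw [Set.ncard_eq_toFinset_card _ (hbfn X), Set.ncard_eq_toFinset_card _ (h3 p K X)]
      have hsub : (hbfn X).toFinset.image Prod.fst ⊆ (h3 p K X).toFinset := by
        intro N hN
        rw [Finset.mem_image] at hN
        obtain ⟨x, hx, rfl⟩ := hN
        rw [Set.Finite.mem_toFinset] at hx ⊢
        exact ⟨hx.1.1, hx.2⟩
      refine (Finset.card_le_mul_card_image (f := Prod.fst) (hbfn X).toFinset (p - 1) ?_).trans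
        (Nat.mul_le_mul_left _ (Finset.card_le_card hsub))
      intro N hN
      have hN' := hsub hN
      rw [Set.Finite.mem_toFinset] at hN'
      have hcN : {x | x ∈ ChN p K ∧ x.1 = N}.ncard ≤ p - 1 := by
        rw [himg N hN'.1, ← k2 N hN'.1]
        exact Set.ncard_image_le (hfib N hN'.1)
      have hfN : {x | x ∈ ChN p K ∧ x.1 = N}.Finite := by
        rw [himg N hN'.1]
        exact (hfib N hN'.1).image _
      refine le_trans ?_ hcN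
      rw [Set.ncard_eq_toFinset_card _ hfN]
      apply Finset.card_le_card
      intro x hx
      rw [Finset.mem_filter, Set.Finite.mem_toFinset] at hx
      rw [Set.Finite.mem_toFinset]
      exact ⟨hx.1.1, hx.2⟩
    have e2 : {N | N ∈ CycF p K ∧ cond K N ≤ C * X}.ncard ≤
        {x | x ∈ ChF p K ∧ cond K x.1 ≤ (p - 1) * C * X}.ncard := by
      have hf : {x | x ∈ ChF p K ∧ cond K x.1 ≤ (p - 1) * C * X}.Finite :=
        (hbfn ((p - 1) * C * X)).subset fun x hx => ⟨hFN hx.1, hx.2⟩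
      have hsub : {N | N ∈ CycF p K ∧ cond K N ≤ C * X} ⊆
          Prod.fst '' {x | x ∈ ChF p K ∧ cond K x.1 ≤ (p - 1) * C * X} := by
        rintro N ⟨hN, hNX⟩
        have hN' : N ∈ CycN p K := ⟨hN.1, hN.2.1⟩
        have hne : {c | c ∈ BSet p K ε ∧ nf c = N}.Nonempty := by
          rw [Set.nonempty_iff_ne_empty]
          intro h0
          have h := k2 N hN'
          rw [h0, Set.ncard_empty] at h
          omega
        obtain ⟨c, hc, hcN⟩ := hne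
        refine ⟨(N, cf c), ⟨⟨hN, ?_⟩, ?_⟩, rfl⟩
        · rw [← hcN]
          exact k5 c hc
        · refine hNX.trans ?_
          rw [mul_assoc]
          exact Nat.le_mul_of_pos_left _ hq
      exact (Set.ncard_le_ncard hsub (hf.image _)).trans (Set.ncard_image_le hf)
    calc {x | x ∈ ChN p K ∧ cond K x.1 ≤ X}.ncard
        ≤ (p - 1) * {N | N ∈ CycN p K ∧ cond K N ≤ X}.ncard := e1
      _ ≤ (p - 1) * (C * ({N | N ∈ CycF p K ∧ cond K N ≤ C * X}.ncard + 1)) :=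
        Nat.mul_le_mul_left _ (hC X)
      _ = (p - 1) * C * ({N | N ∈ CycF p K ∧ cond K N ≤ C * X}.ncard + 1) := by ring
      _ ≤ (p - 1) * C * ({x | x ∈ ChF p K ∧ cond K x.1 ≤ (p - 1) * C * X}.ncard + 1) :=
        Nat.mul_le_mul_left _ (Nat.add_le_add_right e2 1)
  exact core2 (fun c => (nf c, cf c)) (ASet p K ε) (BSet p K ε) (ChN p K) (ChF p K) 1 one_pos
    (fun x => cond K x.1) (fun c => condC K c) hAB hFN hone
    (fun c hc => ⟨fun h => ⟨(k3 c hc).1 h, k5 c hc⟩, fun h => (k3 c hc).2 h.1⟩) k4 h2 hcmp hbfn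
    n Bd G Z θ hθ hZ hG hs hfin hdb hinf hab

end Pool.Agent.Helper81.PPB
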